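import Mathlib
import Pool.Agent.W823.CT.Stm

/-!
# CT-GREEN: Gram representation of the Green function (project CT of helper823)
-/

set_option autoImplicit false

namespace Pool.Agent.W462.CTGREEN

open Finset Matrix Pool.Agent.W823.CT
open scoped MatrixOrder

set_option linter.unusedSectionVars false

variable {V : Type} [Fintype V] [DecidableEq V]

theorem lap_apply (G : SimpleGraph V) [DecidableRel G.Adj] (g : V → ℝ) (x : V) :
    (G.lapMatrix ℝ *ᵥ g) x = ∑ y, if G.Adj x y then (g x - g y) else 0 := by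
  have h : (univ.filter fun y => G.Adj x y) = G.neighborFinset x := by ext y; simp
  rw [SimpleGraph.lapMatrix_mulVec_apply, ← sum_filter, h, sum_sub_distrib, sum_const, nsmul_eq_mul]
  rfl

theorem En_eq (G : SimpleGraph V) [DecidableRel G.Adj] (f g : V → ℝ) :
    En G f g = ∑ x, f x * (G.lapMatrix ℝ *ᵥ g) x := by
  have h1 : ∀ x, f x * (G.lapMatrix ℝ *ᵥ g) x = ∑ y, if G.Adj x y then f x * (g x - g y) else 0 := by
    intro x
    rw [lap_apply, mul_sum]
    refine sum_congr rfl fun y _ => ?_
    split_ifs <;> simp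
  rw [sum_congr rfl fun x _ => h1 x]
  have h2 : (∑ x, ∑ y, if G.Adj x y then (f x - f y) * (g x - g y) else 0) =
      (∑ x, ∑ y, if G.Adj x y then f x * (g x - g y) else 0) +
      ∑ x, ∑ y, if G.Adj x y then f y * (g y - g x) else 0 := by
    rw [← sum_add_distrib]
    refine sum_congr rfl fun x _ => ?_
    rw [← sum_add_distrib]
    refine sum_congr rfl fun y _ => ?_
    split_ifs
    · ring
    · ring
  have h3 : (∑ x, ∑ y, if G.Adj x y then f y * (g y - g x) else 0) =
      ∑ x, ∑ y, if G.Adj x y then f x * (g x - g y) else 0 := by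
    rw [sum_comm]
    refine sum_congr rfl fun x _ => sum_congr rfl fun y _ => ?_
    simp only [G.adj_comm y x]
  unfold En
  rw [h2, h3]; ring

theorem En_sub (G : SimpleGraph V) [DecidableRel G.Adj] (f g : V → ℝ) (c : ℝ) :
    En G (fun x => f x - c) g = En G f g := by
  unfold En
  congr 1
  refine sum_congr rfl fun x _ => sum_congr rfl fun y _ => ?_
  split_ifs
  · ring
  · rfl

theorem En_zero (G : SimpleGraph V) [DecidableRel G.Adj] (hG : G.Connected) (f : V → ℝ)
    (h : En G f f = 0) (x y : V) : f x = f y := by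
  have h1 : ∀ x y, G.Adj x y → f x = f y := by
    intro x y hxy
    unfold En at h
    have h0 : ∀ x y, 0 ≤ (if G.Adj x y then (f x - f y) * (f x - f y) else 0) := by
      intro x y
      split_ifs
      · exact mul_self_nonneg _
      · exact le_refl _
    have h2 : ∑ x, ∑ y, (if G.Adj x y then (f x - f y) * (f x - f y) else 0) = 0 := by linarith
    have h3 := (sum_eq_zero_iff_of_nonneg fun x _ => sum_nonneg fun y _ => h0 x y).1 h2 x (mem_univ _)
    have h4 := (sum_eq_zero_iff_of_nonneg fun y _ => h0 x y).1 h3 y (mem_univ _)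
    rw [if_pos hxy] at h4
    have := mul_self_eq_zero.1 h4
    linarith
  obtain ⟨w⟩ := hG.preconnected x y
  induction w with
  | nil => rfl
  | cons hadj _ ih => exact (h1 _ _ hadj).trans ih

/-- extension by `0` -/
noncomputable def ext (o : V) (f : {x : V // x ≠ o} → ℝ) (x : V) : ℝ :=
  if h : x ≠ o then f ⟨x, h⟩ else 0

theorem ext_o (o : V) (f : {x : V // x ≠ o} → ℝ) : ext o f o = 0 := by simp [ext]

theorem ext_val (o : V) (f : {x : V // x ≠ o} → ℝ) (u : {x : V // x ≠ o}) : ext o f u = f u := by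
  simp [ext, u.2]

/-- restricted Laplacian -/
noncomputable def LU (G : SimpleGraph V) [DecidableRel G.Adj] (o : V) :
    Matrix {x : V // x ≠ o} {x : V // x ≠ o} ℝ :=
  (G.lapMatrix ℝ).submatrix Subtype.val Subtype.val

theorem sum_o (o : V) (f : V → ℝ) : ∑ x, f x = f o + ∑ u : {x : V // x ≠ o}, f u :=
  Fintype.sum_eq_add_sum_subtype_ne f o

theorem LU_apply (G : SimpleGraph V) [DecidableRel G.Adj] (o : V) (g : V → ℝ) (hg : g o = 0)
    (u : {x : V // x ≠ o}) :
    (LU G o *ᵥ fun v => g v) u = (G.lapMatrix ℝ *ᵥ g) u := by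
  simp only [mulVec, dotProduct, LU, submatrix_apply]
  rw [sum_o o (fun y => G.lapMatrix ℝ u y * g y), hg, mul_zero, zero_add]

theorem En_LU (G : SimpleGraph V) [DecidableRel G.Adj] (o : V) (f g : V → ℝ) (hf : f o = 0)
    (hg : g o = 0) : En G f g = ∑ u : {x : V // x ≠ o}, f u * (LU G o *ᵥ fun v => g v) u := by
  rw [En_eq, sum_o o, hf, zero_mul, zero_add]
  refine sum_congr rfl fun u _ => ?_
  rw [LU_apply G o g hg]

theorem LU_posDef (G : SimpleGraph V) [DecidableRel G.Adj] (hG : G.Connected) (o : V) :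
    (LU G o).PosDef := by
  refine PosDef.of_dotProduct_mulVec_pos ?_ ?_
  · exact (SimpleGraph.isHermitian_lapMatrix (R := ℝ) G).submatrix _
  · intro f hf
    have h1 : star f ⬝ᵥ (LU G o *ᵥ f) = En G (ext o f) (ext o f) := by
      rw [En_LU G o _ _ (ext_o o f) (ext_o o f)]
      simp only [dotProduct, ext_val]
      rfl
    rw [h1]
    have h0 : 0 ≤ En G (ext o f) (ext o f) := by
      unfold En
      refine div_nonneg (sum_nonneg fun x _ => sum_nonneg fun y _ => ?_) (by norm_num)
      split_ifs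
      · exact mul_self_nonneg _
      · exact le_refl _
    refine lt_of_le_of_ne h0 fun h => hf ?_
    funext u
    have := En_zero G hG _ h.symm u o
    rw [ext_o, ext_val] at this
    exact this

theorem main : S_GREEN := by
  intro V _ _ G _ o hG
  classical
  have hpd := LU_posDef G hG o
  have hinv := hpd.inv
  obtain ⟨B, hB⟩ := CStarAlgebra.nonneg_iff_eq_star_mul_self.mp hinv.posSemidef.nonneg
  -- the representation
  set a : V → V → ℝ := fun x u => if h : x ≠ o ∧ u ≠ o then B ⟨u, h.2⟩ ⟨x, h.1⟩ else 0 with ha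
  have ha0 : ∀ u, a o u = 0 := fun u => by simp [ha]
  have ha1 : ∀ x, a x o = 0 := fun u => by simp [ha]
  have ha2 : ∀ x u : {x : V // x ≠ o}, a x u = B u x := fun x u => by simp [ha, x.2, u.2]
  have hdot : ∀ x y : {x : V // x ≠ o}, dotp (a x) (a y) = (LU G o)⁻¹ x y := by
    intro x y
    unfold dotp
    rw [sum_o o, ha1, zero_mul, zero_add, hB]
    simp only [star_eq_conjTranspose, mul_apply, conjTranspose_apply, ha2]
    rfl
  refine ⟨a, ha0, ha1, ?_⟩
  intro f x
  rw [← En_sub G f _ (f o)]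
  have hgo : dotp (a x) (a o) = 0 := by
    unfold dotp
    simp [ha0]
  by_cases hx : x = o
  · subst hx
    have h1 : (fun z => dotp (a x) (a z)) = fun _ => 0 := by
      funext z
      unfold dotp
      simp [ha0]
    rw [h1, En_eq]
    have h2 : (G.lapMatrix ℝ *ᵥ fun _ => (0 : ℝ)) = 0 := by
      have := mulVec_zero (G.lapMatrix ℝ)
      exact this
    rw [h2]
    simp
  · rw [En_LU G o _ _ (by simp) hgo]
    have h1 : (fun v : {x : V // x ≠ o} => dotp (a x) (a v)) =
        (LU G o)⁻¹ *ᵥ (Pi.single (⟨x, hx⟩ : {x : V // x ≠ o}) 1) := by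
      funext v
      rw [mulVec_single_one]
      have h2 := hdot ⟨x, hx⟩ v
      show dotp (a x) (a v) = (LU G o)⁻¹ v ⟨x, hx⟩
      have h3 : (LU G o)⁻¹ v ⟨x, hx⟩ = (LU G o)⁻¹ ⟨x, hx⟩ v := by
        have := hinv.isHermitian.apply v ⟨x, hx⟩
        rw [← this]
        rfl
      rw [h3]
      exact h2
    rw [h1, mulVec_mulVec, mul_nonsing_inv _ ((isUnit_iff_isUnit_det _).1 hpd.isUnit), one_mulVec]
    rw [sum_eq_single (⟨x, hx⟩ : {x : V // x ≠ o})]
    · simp
    · intro b _ hb
      rw [Pi.single_eq_of_ne hb, mul_zero]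
    · intro h
      exact absurd (mem_univ _) h

end Pool.Agent.W462.CTGREEN
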