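import Mathlib
import Pool.Agent.W757.RD.StN
import Pool.Agent.W324.RQOPA
import Pool.Agent.H790R3.RB.TALL

set_option autoImplicit false

open Topology Filter Metric Set MeasureTheory
open Pool.Agent.H790R3.RB (CV hF cr ND wr rt sp pr hc HypTop Attd Sink)
open Pool.Agent.W757.RD
open scoped OnePoint

namespace Pool.Agent.W462.RENORM

theorem closed_na {d : ℕ} (hd : 2 ≤ d) {x : CV d} (hx : ND x) :
    MeasurableSet {z : ℂ | ¬ Attd (sp x) (z : OnePoint ℂ)} := by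
  have h : IsOpen {z : ℂ | Attd (sp x) (z : OnePoint ℂ)} := by
    rw [isOpen_iff_mem_nhds]
    intro z hz
    obtain ⟨σ, U, hσ, hU, h⟩ := Pool.Agent.W324.RQOPA.task d x z hd hx hz
    have h1 := (h x (by rw [sub_self, norm_zero]; exact hσ)).2
    have h2 : (fun w : ℂ => (w : OnePoint ℂ)) ⁻¹' U ∈ 𝓝 z :=
      OnePoint.continuous_coe.continuousAt hU
    filter_upwards [h2] with w hw
    exact h1 _ hw
  exact h.measurableSet.compl

theorem task (hNM : StNM) (hNA : StNA) (hMU : StMU) : Pool.Agent.W757.RD.StNORM := by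
  intro β d x₀ q₀ hβ hβ1 hd hx₀ hq₀ hw₀
  obtain ⟨b₁, b₂, u₀, hb, hb1, hb2, hu₀, hG, H⟩ := hNM d x₀ q₀ hd hx₀ hq₀ hw₀
  refine ⟨u₀, hu₀, hG, ?_⟩
  intro ε hε
  obtain ⟨C, δ₁, hC, hδ₁, V₁, hV₁, H1⟩ := H ε hε
  obtain ⟨B, δ₂, hB, hδ₂, V₂, hV₂, H2⟩ := hNA β q₀ b₁ b₂ hβ hβ1 hb hb1 hb2 δ₁ hδ₁
  obtain ⟨δ₃, hδ₃, hball⟩ := Metric.eventually_nhds_iff.1 (Pool.Agent.H790R3.RB.FAM.ND_open hx₀)
  refine ⟨C, B, min δ₁ (min δ₂ δ₃), hC, hB, lt_min hδ₁ (lt_min hδ₂ hδ₃), V₁ ∩ V₂,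
    inter_mem hV₁ hV₂, ?_⟩
  intro x hx q hq hfix hns a ha haδ hsar
  have hxd1 : ‖x - x₀‖ < δ₁ := lt_of_lt_of_le hx (min_le_left _ _)
  have hxd3 : ‖x - x₀‖ < δ₃ := lt_of_lt_of_le hx ((min_le_right _ _).trans (min_le_right _ _))
  have had2 : a < δ₂ := lt_of_lt_of_le haδ ((min_le_right _ _).trans (min_le_left _ _))
  have hND : ND x := hball (by rw [dist_eq_norm]; exact hxd3)
  set E : Set ℂ := {z : ℂ | ¬ Attd (sp x) (z : OnePoint ℂ)} with hE
  have hEm : MeasurableSet E := closed_na hd hND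
  obtain ⟨a₁, a₂, ha1, ha2, ha1E, ha2E, hmu⟩ := H2 q hq.2 E hEm a ha had2 hsar
  obtain ⟨u₁, h, Q, hQ0, hQq, hh, hhq, hh1, hh2, hu, hs, hx'⟩ :=
    H1 x hxd1 q hq.1 hfix a₁ a₂ ha1 ha2
  have hs1 : ∀ z, sp (fam u₁) (h z) = h (sp x z) := fun z => (hs z).symm
  have hs2 : ∀ (y : CV d) (u : Fin (2 * d) → ℂ), (∀ z, h (sp y z) = sp (fam u) (h z)) →
      ∀ z, sp y (h.symm z) = h.symm (sp (fam u) z) := by
    intro y u hyu z
    apply h.injective
    rw [hyu, h.apply_symm_apply, h.apply_symm_apply]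
  refine ⟨u₁, hu, ?_, ?_, ?_, ?_⟩
  · intro p hp
    apply hns p
    have := Pool.Agent.H790R3.RB.ALL.sink h.symm (hs2 x u₁ hs) hp
    rwa [← hhq, h.symm_apply_apply] at this
  · have e1 : Attd (sp x) (a₁ : OnePoint ℂ) := by
      by_contra hcon
      exact ha1E hcon
    have e2 : Attd (sp x) (a₂ : OnePoint ℂ) := by
      by_contra hcon
      exact ha2E hcon
    have f1 := Pool.Agent.H790R3.RB.ALL.attd h hs1 e1
    have f2 := Pool.Agent.H790R3.RB.ALL.attd h hs1 e2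
    rw [hh1] at f1
    rw [hh2] at f2
    intro j
    fin_cases j
    · simpa [bz] using f1
    · simpa [bz] using f2
  · have hle := hmu h Q hQ0 hQq hh
    have hsub : {z : ℂ | ¬ Attd (sp (fam u₁)) (z : OnePoint ℂ)} ⊆
        {w : ℂ | ∃ z ∈ E, h (z : OnePoint ℂ) = (w : OnePoint ℂ)} ∪
          {w : ℂ | h ∞ = (w : OnePoint ℂ)} := by
      intro w hw
      have hw1 : ¬ Attd (sp x) (h.symm (w : OnePoint ℂ)) := by
        intro hA
        apply hw
        have := Pool.Agent.H790R3.RB.ALL.attd h hs1 hA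
        rwa [h.apply_symm_apply] at this
      rcases ne_or_eq (h.symm (w : OnePoint ℂ)) ∞ with hc | hc
      · obtain ⟨z, hz⟩ := OnePoint.ne_infty_iff_exists.1 hc
        left
        refine ⟨z, ?_, ?_⟩
        · show ¬ Attd (sp x) (z : OnePoint ℂ)
          rw [hz]; exact hw1
        · rw [hz, h.apply_symm_apply]
      · right
        show h ∞ = (w : OnePoint ℂ)
        rw [← hc, h.apply_symm_apply]
    have hsing : mu β {w : ℂ | h ∞ = (w : OnePoint ℂ)} = 0 := by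
      rw [← (hMU β hβ hβ1).2]
      refine Set.Subsingleton.measure_zero ?_ _
      intro w hw w' hw'
      exact OnePoint.coe_injective (hw.symm.trans hw')
    calc mu β {z : ℂ | ¬ Attd (sp (fam u₁)) (z : OnePoint ℂ)}
        ≤ mu β ({w : ℂ | ∃ z ∈ E, h (z : OnePoint ℂ) = (w : OnePoint ℂ)} ∪
          {w : ℂ | h ∞ = (w : OnePoint ℂ)}) := measure_mono hsub
      _ ≤ mu β {w : ℂ | ∃ z ∈ E, h (z : OnePoint ℂ) = (w : OnePoint ℂ)} +
          mu β {w : ℂ | h ∞ = (w : OnePoint ℂ)} := measure_union_le _ _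
      _ = mu β {w : ℂ | ∃ z ∈ E, h (z : OnePoint ℂ) = (w : OnePoint ℂ)} := by
          rw [hsing, add_zero]
      _ ≤ _ := hle
  · intro u hu1 hNDu hyp
    obtain ⟨x', hn, hND', hsx⟩ := hx' u hu1 hNDu
    exact ⟨x', hn, hND', Pool.Agent.H790R3.RB.ALL.hyp h.symm (hs2 x' u hsx) hyp⟩

end Pool.Agent.W462.RENORM
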