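import Mathlib
import Pool.Agent.W757.Q2.St
import Pool.Agent.W324.RQOPA
import Pool.Agent.W409.RQAPX
import Pool.Agent.W462.RENORM

set_option autoImplicit false

open Topology Filter Metric Set MeasureTheory
open scoped OnePoint
open Pool.Agent.H790R3.RB (CV hF cr ND wr rt sp pr hc pol Sink Attd HypTop)
open Pool.Agent.W757.QR Pool.Agent.W757.RF Pool.Agent.W757.Q2

namespace Pool.Agent.W462.REQ2APX

/-- the spherical area as a measure -/
noncomputable def nu0 : Measure ℂ :=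
  volume.withDensity (fun z : ℂ => ENNReal.ofReal (1 / (1 + ‖z‖ ^ 2) ^ 2))

theorem sarea_eq (E : Set ℂ) : sarea E = nu0 E := (withDensity_apply' _ E).symm

theorem nu0_fin : nu0 univ < ⊤ := by
  rw [← sarea_eq]
  unfold sarea
  rw [Measure.restrict_univ]
  have h : Integrable (fun z : ℂ => ((1 : ℝ) + ‖z‖ ^ 2) ^ (-(4 : ℝ) / 2)) volume :=
    integrable_rpow_neg_one_add_norm_sq (by rw [Complex.finrank_real_complex]; norm_num)
  have h2 := h.lintegral_lt_top
  refine lt_of_le_of_lt (lintegral_mono fun z => ?_) h2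
  apply ENNReal.ofReal_le_ofReal
  have h3 : (0 : ℝ) < 1 + ‖z‖ ^ 2 := by positivity
  rw [show (-(4 : ℝ) / 2) = -(2 : ℝ) by norm_num, Real.rpow_neg h3.le, one_div]
  norm_num

theorem chart_zero (a : OnePoint ℂ) : chart a 0 = a := by
  induction a using OnePoint.rec with
  | infty => simp [chart, OnePoint.infty]
  | coe a =>
    show ((a + 0 : ℂ) : OnePoint ℂ) = _
    rw [add_zero]

theorem hasMult_fix {f : OnePoint ℂ → OnePoint ℂ} {p : ℕ} {a : OnePoint ℂ} {ρ : ℂ}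
    (h : HasMult f p a ρ) : f^[p] a = a := by
  obtain ⟨g, g0, -, hg⟩ := h
  have := hg.self_of_nhds
  rwa [g0, chart_zero] at this

/-- periodic points -/
def Per {d : ℕ} (x : CV d) : Set (OnePoint ℂ) := {z | ∃ p : ℕ, 0 < p ∧ (sp x)^[p] z = z}

theorem per_countable {d : ℕ} (hd : 2 ≤ d) {x : CV d} (hx : ND x) :
    (insert ∞ (Per x)).Countable := by
  have h1 : (⋃ p : ℕ, (fun z : ℂ => (z : OnePoint ℂ)) ''
      {z : ℂ | 0 < p ∧ (sp x)^[p] (z : OnePoint ℂ) = (z : OnePoint ℂ)}).Countable := by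
    refine countable_iUnion fun p => Countable.image ?_ _
    rcases Nat.eq_zero_or_pos p with hp | hp
    · have : {z : ℂ | 0 < p ∧ (sp x)^[p] (z : OnePoint ℂ) = (z : OnePoint ℂ)} = ∅ := by
        ext z
        simp [hp]
      rw [this]
      exact countable_empty
    · exact ((Pool.Agent.W409.RQAPX.finite_fix x hd hx p hp).subset fun z hz => hz.2).countable
  refine (h1.union (countable_singleton ∞)).mono ?_
  rintro z (rfl | ⟨p, hp, hz⟩)
  · exact Or.inr rfl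
  · induction z using OnePoint.rec with
    | infty => exact Or.inr rfl
    | coe z => exact Or.inl (mem_iUnion.2 ⟨p, z, ⟨hp, hz⟩, rfl⟩)

theorem task (hPTW : StPTW) : Pool.Agent.W757.Q2.StAPX2 := by
  intro d x hd hx ε hε
  classical
  obtain ⟨e, he⟩ := (per_countable hd hx).exists_eq_range (insert_nonempty _ _)
  set Zs : ℕ → Finset (OnePoint ℂ) := fun m => (Finset.range m).image e with hZs
  set G : ℕ → Set ℂ := fun m => {z : ℂ | Attd (sp x) (z : OnePoint ℂ) ∨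
        ∃ a ∈ Zs m, ParaA (sp x) a (z : OnePoint ℂ) ∨ SiegA (sp x) a (z : OnePoint ℂ)} with hG
  have hGmono : Monotone G := by
    intro i j hij z hz
    rcases hz with hz | ⟨a, ha, hz⟩
    · exact Or.inl hz
    · refine Or.inr ⟨a, ?_, hz⟩
      exact Finset.image_subset_image (Finset.range_mono hij) ha
  have hmem : ∀ a ∈ Per x, ∃ m, a ∈ Zs m := by
    intro a ha
    have h1 : a ∈ range e := by rw [← he]; exact Or.inr ha
    obtain ⟨i, rfl⟩ := h1
    exact ⟨i + 1, Finset.mem_image_of_mem e (Finset.mem_range.2 (Nat.lt_succ_self i))⟩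
  have hcov : (univ : Set ℂ) ⊆ (⋃ m, G m) ∪ JS (sp x) := by
    intro z _
    by_cases h1 : Attd (sp x) (z : OnePoint ℂ)
    · exact Or.inl (mem_iUnion.2 ⟨0, Or.inl h1⟩)
    by_cases h2 : ParaB (sp x) (z : OnePoint ℂ)
    · obtain ⟨p, a, hp, hm, hlim, hne⟩ := h2
      obtain ⟨m, hm'⟩ := hmem a ⟨p, hp, hasMult_fix hm⟩
      exact Or.inl (mem_iUnion.2 ⟨m, Or.inr ⟨a, hm', Or.inl ⟨p, hp, hm, hlim, hne⟩⟩⟩)
    by_cases h3 : SiegB (sp x) (z : OnePoint ℂ)
    · obtain ⟨n, p, r, ρ, h, hp, hr, hρ, hirr, hh, hi, hc, hn⟩ := h3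
      have hfix : (sp x)^[p] (h 0) = h 0 := by
        rw [hc 0 (mem_ball_self hr), mul_zero]
      obtain ⟨m, hm'⟩ := hmem (h 0) ⟨p, hp, hfix⟩
      exact Or.inl (mem_iUnion.2 ⟨m, Or.inr ⟨h 0, hm',
        Or.inr ⟨n, p, r, ρ, h, hp, hr, hρ, hirr, hh, hi, hc, hn, rfl⟩⟩⟩)
    exact Or.inr ⟨h1, h2, h3⟩
  set η : ENNReal := ENNReal.ofReal (ε / 2) with hη
  have hη0 : 0 < η := ENNReal.ofReal_pos.2 (by linarith)
  have hηη : η + η = ENNReal.ofReal ε := by
    rw [hη, ← ENNReal.ofReal_add (by linarith) (by linarith)]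
    congr 1
    ring
  have hfin : ∀ A : Set ℂ, nu0 A ≠ ⊤ := fun A =>
    ((measure_mono (subset_univ A)).trans_lt nu0_fin).ne
  -- a common argument
  have key : ∀ (H : ℕ → Set ℂ), Monotone H → ∃ m, nu0 (⋃ m, H m) ≤ nu0 (H m) + η := by
    intro H hH
    by_contra hcon
    push Not at hcon
    have h1 : (⨆ m : ℕ, (nu0 (H m) + η)) ≤ nu0 (⋃ m, H m) := iSup_le fun m => (hcon m).le
    rw [← ENNReal.iSup_add, ← hH.measure_iUnion] at h1
    have h2 : nu0 (⋃ m, H m) + η ≤ nu0 (⋃ m, H m) + 0 := by rwa [add_zero]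
    exact absurd ((ENNReal.add_le_add_iff_left (hfin _)).1 h2) (not_le.2 hη0)
  obtain ⟨m, hm⟩ := key G hGmono
  obtain ⟨X, E, hX, hND, hE, hatt⟩ := hPTW d x (Zs m) hd hx
  set A : ℕ → Set ℂ := fun n => {z : ℂ | Attd (sp (X n)) (z : OnePoint ℂ)} with hA
  set B : ℕ → Set ℂ := fun N => ⋂ n ∈ Ici N, A n with hB
  have hBmono : Monotone B := by
    intro i j hij z hz
    rw [hB, mem_iInter₂] at hz ⊢
    intro n hn
    exact hz n (le_trans hij hn)
  obtain ⟨N, hN⟩ := key B hBmono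
  have hE0 : nu0 E = 0 := (withDensity_absolutelyContinuous _ _) (hE.measure_zero volume)
  have hGB : nu0 (G m) ≤ nu0 (⋃ N, B N) := by
    have hsub : G m ⊆ (⋃ N, B N) ∪ E := by
      intro z hz
      by_cases hzE : z ∈ E
      · exact Or.inr hzE
      · left
        obtain ⟨N, hN⟩ := eventually_atTop.1 (hatt z hzE hz)
        exact mem_iUnion.2 ⟨N, mem_iInter₂.2 fun n hn => hN n hn⟩
    calc nu0 (G m) ≤ nu0 ((⋃ N, B N) ∪ E) := measure_mono hsub
      _ ≤ nu0 (⋃ N, B N) + nu0 E := measure_union_le _ _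
      _ = nu0 (⋃ N, B N) := by rw [hE0, add_zero]
  have hev : ∀ᶠ n in atTop, ‖X n - x‖ < ε := by
    have h1 := hX.eventually (ball_mem_nhds x hε)
    filter_upwards [h1] with n hn
    exact (dist_eq_norm (X n) x) ▸ hn
  obtain ⟨n, hn1, hn2⟩ := (hev.and (eventually_ge_atTop N)).exists
  refine ⟨X n, hn1, hND n, ?_⟩
  rw [sarea_eq, sarea_eq]
  have hmeas : MeasurableSet {z : ℂ | ¬ Attd (sp (X n)) (z : OnePoint ℂ)} :=
    Pool.Agent.W462.RENORM.closed_na hd (hND n)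
  have hcompl : {z : ℂ | ¬ Attd (sp (X n)) (z : OnePoint ℂ)}ᶜ = A n := by
    ext z
    simp [hA]
  have hsum : nu0 {z : ℂ | ¬ Attd (sp (X n)) (z : OnePoint ℂ)} + nu0 (A n) = nu0 univ := by
    rw [← hcompl]
    exact measure_add_measure_compl hmeas
  have hBA : nu0 (B N) ≤ nu0 (A n) := by
    apply measure_mono
    intro z hz
    exact mem_iInter₂.1 hz n hn2
  have htot : nu0 univ ≤ nu0 (A n) + (nu0 (JS (sp x)) + ENNReal.ofReal ε) := by
    calc nu0 univ ≤ nu0 ((⋃ m, G m) ∪ JS (sp x)) := measure_mono hcov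
      _ ≤ nu0 (⋃ m, G m) + nu0 (JS (sp x)) := measure_union_le _ _
      _ ≤ (nu0 (G m) + η) + nu0 (JS (sp x)) := add_le_add hm le_rfl
      _ ≤ (nu0 (⋃ N, B N) + η) + nu0 (JS (sp x)) := add_le_add (add_le_add hGB le_rfl) le_rfl
      _ ≤ ((nu0 (B N) + η) + η) + nu0 (JS (sp x)) :=
          add_le_add (add_le_add hN le_rfl) le_rfl
      _ ≤ ((nu0 (A n) + η) + η) + nu0 (JS (sp x)) :=
          add_le_add (add_le_add (add_le_add hBA le_rfl) le_rfl) le_rfl
      _ = nu0 (A n) + (nu0 (JS (sp x)) + (η + η)) := by ring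
      _ = nu0 (A n) + (nu0 (JS (sp x)) + ENNReal.ofReal ε) := by rw [hηη]
  rw [← hsum, add_comm] at htot
  exact (ENNReal.add_le_add_iff_left (hfin _)).1 htot

end Pool.Agent.W462.REQ2APX
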