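import Mathlib
import Pool.Agent.W757.RD.StN
import Pool.Agent.W324.RQOPA

set_option autoImplicit false

open Topology Filter Metric Set MeasureTheory
open Pool.Agent.H790R3.RB (CV hF cr ND wr rt sp pr hc HypTop Attd Sink hF_contDiff)
open Pool.Agent.W324.RQOPA (ph ph_open ph_cont sp_ph exists_chart)
open Pool.Agent.H790R3.RB.FAM (cp cp_ne cp_cont zb)
open Pool.Agent.W757.RD
open scoped OnePoint

namespace Pool.Agent.W462.RESEQ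

/-- the local form of the statement near a fixed point -/
def Loc (γ : ℝ) (d : ℕ) (x₀ : CV d) (q₀ : OnePoint ℂ) : Prop :=
  ∃ C δ : ℝ, 0 < C ∧ 0 < δ ∧ ∃ V ∈ 𝓝 q₀, ∀ x : CV d, ‖x - x₀‖ < δ → ∀ q ∈ V, sp x q = q →
    (∀ p : ℕ, ¬ Sink (sp x) p q) → ∀ a : ℝ, 0 < a → a < δ →
    sar {z : ℂ | ¬ Attd (sp x) (z : OnePoint ℂ)} ≤ ENNReal.ofReal a →
    ∃ x' : CV d, ‖x' - x‖ ≤ C * a ^ γ ∧ ND x' ∧ HypTop (sp x')

theorem loc_ne {γ : ℝ} {d : ℕ} (hd : 2 ≤ d) {x₀ : CV d} (hx₀ : ND x₀) {q₀ : OnePoint ℂ}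
    (hne : sp x₀ q₀ ≠ q₀) : Loc γ d x₀ q₀ := by
  obtain ⟨k, β, hkβ⟩ := exists_chart q₀
  set w₀ := zb β k () with hw₀
  have h0 : hF x₀ (cp k w₀) ≠ 0 := fun h => cp_ne k w₀ (hx₀ _ h)
  have c1 : Continuous (fun y : CV d × ℂ => hF y.1 (cp k y.2)) :=
    (hF_contDiff d 1).continuous.comp (continuous_fst.prodMk
      ((cp_cont k).continuous.comp continuous_snd))
  have c2 : ContinuousAt (fun y : CV d × ℂ => pr (hF y.1 (cp k y.2))) (x₀, w₀) :=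
    ContinuousAt.comp (f := fun y : CV d × ℂ => hF y.1 (cp k y.2)) (g := pr) (x := (x₀, w₀))
      (Pool.Agent.H790R3.RB.SP.continuousAt_pr h0) c1.continuousAt
  have c3 : ContinuousAt (fun y : CV d × ℂ => ph k y.2) (x₀, w₀) :=
    ((ph_cont k).comp continuous_snd).continuousAt
  have hne' : pr (hF x₀ (cp k w₀)) ≠ ph k w₀ := by
    have h1 := sp_ph hx₀ (by omega : 1 ≤ d) k w₀ 1
    simp only [Function.iterate_one] at h1
    rw [← h1, hkβ]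
    exact hne
  have h2 : ∀ᶠ y : CV d × ℂ in 𝓝 (x₀, w₀), pr (hF y.1 (cp k y.2)) ≠ ph k y.2 :=
    (ContinuousAt.ne_iff_eventually_ne c2 c3).1 hne'
  obtain ⟨δ₁, hδ₁, hb1⟩ := Metric.eventually_nhds_iff_ball.1 h2
  obtain ⟨δ₃, hδ₃, hb3⟩ := Metric.eventually_nhds_iff.1 (Pool.Agent.H790R3.RB.FAM.ND_open hx₀)
  refine ⟨1, min δ₁ δ₃, one_pos, lt_min hδ₁ hδ₃, ph k '' ball w₀ δ₁, ?_, ?_⟩
  · rw [← hkβ]
    exact (ph_open k).image_mem_nhds (ball_mem_nhds w₀ hδ₁)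
  · intro x hx q hq hfix
    exfalso
    obtain ⟨w, hw, rfl⟩ := hq
    have hND : ND x := hb3 (by rw [dist_eq_norm]; exact lt_of_lt_of_le hx (min_le_right _ _))
    have h3 := hb1 (x, w) (by
      rw [← ball_prod_same]
      exact ⟨by rw [mem_ball, dist_eq_norm]; exact lt_of_lt_of_le hx (min_le_left _ _), hw⟩)
    have h4 := sp_ph hND (by omega : 1 ≤ d) k w 1
    simp only [Function.iterate_one] at h4
    exact h3 (h4.symm.trans hfix)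

theorem loc_crit (hNAC : StNAC) {γ : ℝ} {d : ℕ} (hd : 2 ≤ d) {x₀ : CV d} (hx₀ : ND x₀)
    {q₀ : OnePoint ℂ} (hfix : sp x₀ q₀ = q₀) (hw : wr x₀ (hc q₀) = 0) : Loc γ d x₀ q₀ := by
  obtain ⟨δ, hδ, V, hV, h⟩ := hNAC d x₀ q₀ hd hx₀ hfix hw
  exact ⟨1, δ, one_pos, hδ, V, hV, fun x hx q hq hf hns => absurd (h x hx q hq hf) (hns 1)⟩

theorem loc_main (hSEL : StSEL) (hNORM : StNORM) {γ : ℝ} (hγ : 0 < γ) (hγ2 : γ < 1 / 2) {d : ℕ}
    (hd : 2 ≤ d) {x₀ : CV d} (hx₀ : ND x₀)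
    {q₀ : OnePoint ℂ} (hfix : sp x₀ q₀ = q₀) (hw : wr x₀ (hc q₀) ≠ 0) : Loc γ d x₀ q₀ := by
  obtain ⟨u₀, hu₀, hG, H⟩ := hNORM (γ + 1 / 2) d x₀ q₀ (by linarith) (by linarith) hd hx₀ hfix hw
  obtain ⟨C₂, ε₂, σ₂, hC₂, hε₂, hσ₂, H2⟩ :=
    hSEL (γ + 1 / 2) d u₀ (by linarith) (by linarith) hd hu₀ hG
  obtain ⟨C, B, δ, hC, hB, hδ, V, hV, H3⟩ := H σ₂ hσ₂
  have hexp : 2 * (γ + 1 / 2) - 1 = γ + γ := by ring
  have hK : 0 < C₂ * Real.sqrt B + 1 := by positivity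
  have e1 : ∀ᶠ a : ℝ in 𝓝 0, B * a ^ (γ + γ) < ε₂ := by
    have c : ContinuousAt (fun a : ℝ => B * a ^ (γ + γ)) 0 :=
      continuousAt_const.mul (Real.continuousAt_rpow_const 0 _ (Or.inr (by linarith)))
    have := c.tendsto.eventually_lt_const (u := ε₂)
      (by rw [Real.zero_rpow (by linarith)]; simpa using hε₂)
    exact this
  have e2 : ∀ᶠ a : ℝ in 𝓝 0, (C₂ * Real.sqrt B + 1) * a ^ γ < 1 := by
    have c : ContinuousAt (fun a : ℝ => (C₂ * Real.sqrt B + 1) * a ^ γ) 0 :=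
      continuousAt_const.mul (Real.continuousAt_rpow_const 0 _ (Or.inr hγ.le))
    have := c.tendsto.eventually_lt_const (u := (1 : ℝ))
      (by rw [Real.zero_rpow hγ.ne']; simp)
    exact this
  obtain ⟨δ', hδ', hb⟩ := Metric.eventually_nhds_iff.1 (e1.and e2)
  refine ⟨C * (C₂ * Real.sqrt B + 1), min δ δ', by positivity, lt_min hδ hδ', V, hV, ?_⟩
  intro x hx q hq hf hns a ha haδ hsar
  obtain ⟨u₁, hu₁, hns1, hatt, hmu, hback⟩ := H3 x (lt_of_lt_of_le hx (min_le_left _ _)) q hq hf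
    hns a ha (lt_of_lt_of_le haδ (min_le_left _ _)) hsar
  obtain ⟨hs1, hs2⟩ := hb (y := a) (by
    rw [Real.dist_eq, sub_zero, abs_of_pos ha]; exact lt_of_lt_of_le haδ (min_le_right _ _))
  rw [hexp] at hmu
  have hag : 0 < a ^ γ := Real.rpow_pos_of_pos ha _
  obtain ⟨u, hu, huU, hhyp⟩ := H2 u₁ hu₁ hns1 hatt (B * a ^ (γ + γ))
    (by have := Real.rpow_nonneg ha.le (γ + γ); positivity) hs1 hmu (a ^ γ) hag
  have hsqrt : Real.sqrt (B * a ^ (γ + γ)) = Real.sqrt B * a ^ γ := by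
    rw [Real.sqrt_mul hB.le, Real.rpow_add ha, Real.sqrt_mul_self hag.le]
  have hle : ‖u - u₁‖ ≤ (C₂ * Real.sqrt B + 1) * a ^ γ := by
    rw [hsqrt] at hu
    linarith
  obtain ⟨x', hx', hND', hhyp'⟩ := hback u (lt_of_le_of_lt hle hs2) huU.1 hhyp
  refine ⟨x', ?_, hND', hhyp'⟩
  calc ‖x' - x‖ ≤ C * ‖u - u₁‖ := hx'
    _ ≤ C * ((C₂ * Real.sqrt B + 1) * a ^ γ) := mul_le_mul_of_nonneg_left hle hC.le
    _ = C * (C₂ * Real.sqrt B + 1) * a ^ γ := by ring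

theorem task (hSEL : StSEL) (hNORM : StNORM) (hNAF : StNAF) (hNAC : StNAC) (hHEX : StHEX) :
    Pool.Agent.W757.RD.StSEQ := by
  intro γ d x₀ hγ hγ2 hd hx₀
  have hloc : ∀ q₀ : OnePoint ℂ, Loc γ d x₀ q₀ := by
    intro q₀
    by_cases h1 : sp x₀ q₀ = q₀
    · by_cases h2 : wr x₀ (hc q₀) = 0
      · exact loc_crit hNAC hd hx₀ h1 h2
      · exact loc_main hSEL hNORM hγ hγ2 hd hx₀ h1 h2
    · exact loc_ne hd hx₀ h1
  choose C δ hC hδ V hV H using hloc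
  obtain ⟨t, -, ht⟩ := isCompact_univ.elim_nhds_subcover V (fun q _ => hV q)
  obtain ⟨xH, hxH, hhyp⟩ := hHEX d hd
  obtain ⟨δ₃, hδ₃, hb3⟩ := Metric.eventually_nhds_iff.1 (Pool.Agent.H790R3.RB.FAM.ND_open hx₀)
  obtain ⟨η, hη, hη1, hη2⟩ : ∃ η : ℝ, 0 < η ∧ η < δ₃ ∧ ∀ q ∈ t, η < δ q := by
    have e1 : ∀ᶠ η : ℝ in 𝓝[>] 0, 0 < η := eventually_mem_nhdsWithin
    have e2 : ∀ᶠ η : ℝ in 𝓝[>] 0, η < δ₃ :=
      eventually_nhdsWithin_of_eventually_nhds (eventually_lt_nhds hδ₃)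
    have e3 : ∀ᶠ η : ℝ in 𝓝[>] 0, ∀ q ∈ t, η < δ q :=
      (Finset.eventually_all t).2 fun q _ =>
        eventually_nhdsWithin_of_eventually_nhds (eventually_lt_nhds (hδ q))
    obtain ⟨η, h1, h2, h3⟩ := (e1.and (e2.and e3)).exists
    exact ⟨η, h1, h2, h3⟩
  have hηg : 0 < η ^ γ := Real.rpow_pos_of_pos hη _
  have hS : 0 ≤ ∑ q ∈ t, C q := Finset.sum_nonneg fun q _ => (hC q).le
  set M : ℝ := (‖xH - x₀‖ + η) / η ^ γ with hM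
  have hM0 : 0 < M := by positivity
  refine ⟨∑ q ∈ t, C q + M, η, by linarith, hη, ?_⟩
  intro x hx a ha hsar
  have hag : 0 < a ^ γ := Real.rpow_pos_of_pos ha _
  rcases lt_or_ge a η with haη | haη
  · have hND : ND x := hb3 (by rw [dist_eq_norm]; exact hx.trans hη1)
    obtain ⟨q, hq, hns⟩ := hNAF d x hd hND
    obtain ⟨q₀, hq₀, hqV⟩ := mem_iUnion₂.1 (ht (mem_univ q))
    obtain ⟨x', hx', hND', hh'⟩ := H q₀ x (hx.trans (hη2 q₀ hq₀)) q hqV hq hns a ha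
      (haη.trans (hη2 q₀ hq₀)) hsar
    refine ⟨x', hx'.trans (mul_le_mul_of_nonneg_right ?_ hag.le), hND', hh'⟩
    have := Finset.single_le_sum (f := C) (fun q _ => (hC q).le) hq₀
    linarith
  · refine ⟨xH, ?_, hxH, hhyp⟩
    have h1 : ‖xH - x‖ ≤ ‖xH - x₀‖ + η := by
      calc ‖xH - x‖ = ‖(xH - x₀) - (x - x₀)‖ := by congr 1; abel
        _ ≤ ‖xH - x₀‖ + ‖x - x₀‖ := norm_sub_le _ _
        _ ≤ ‖xH - x₀‖ + η := by linarith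
    have h2 : η ^ γ ≤ a ^ γ := Real.rpow_le_rpow hη.le haη hγ.le
    calc ‖xH - x‖ ≤ ‖xH - x₀‖ + η := h1
      _ = M * η ^ γ := by rw [hM]; field_simp
      _ ≤ M * a ^ γ := mul_le_mul_of_nonneg_left h2 hM0.le
      _ ≤ (∑ q ∈ t, C q + M) * a ^ γ := mul_le_mul_of_nonneg_right (by linarith) hag.le

end Pool.Agent.W462.RESEQ
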