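import Mathlib
import Pool.Agent.W757.RD.St4
import Pool.Agent.H790R3.RB.TFAM
import Pool.Agent.W369.RQLOCM

set_option autoImplicit false

open Topology Filter Metric Set MeasureTheory
open Pool.Agent.H790R3.RB (CV hF cr ND wr rt ch hF_iter_smul hF_iter_continuous cr_smul_left cr_self
  cr_ch ch_ne_zero)
open Pool.Agent.H790R3.RB.FAM (cp lc FPk)
open scoped OnePoint

namespace Pool.Agent.W462.RELOCM

open Pool.Agent.W757.RD

theorem task (hFM : StFM) : Pool.Agent.W757.RD.StLOCM := by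
  intro d u₁ s per p hd hM
  obtain ⟨hUo, hfd, -, -, -⟩ := hFM d hd
  have hx₁ : u₁ ∈ U₀ d := hM.xU
  set w : (Fin (2 * d) → ℂ) → CV d := fun x => fam (u₁ + x) with hw
  have hwd : ∀ᶠ x in 𝓝 0, DifferentiableAt ℂ w x := by
    refine Eventually.of_forall fun x => ?_
    exact (hfd (u₁ + x)).comp x ((differentiableAt_const u₁).add differentiableAt_id)
  have hw0 : w 0 = fam u₁ := by simp [hw]
  have hND : ND (w 0) := by rw [hw0]; exact hx₁.1
  obtain ⟨θ', hθ'1, hθ'⟩ : ∃ θ : ℝ, θ < 1 ∧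
      ∀ k, ‖deriv (rt (fam u₁) (per k)) (p k)‖ < θ := by
    rcases isEmpty_or_nonempty (Fin s) with hs | hs
    · exact ⟨1 / 2, by norm_num, fun k => isEmptyElim k⟩
    obtain ⟨k0, hk0⟩ := Finite.exists_max
      (fun k => ‖deriv (rt (fam u₁) (per k)) (p k)‖)
    refine ⟨(‖deriv (rt (fam u₁) (per k0)) (p k0)‖ + 1) / 2, by linarith [hM.mul k0],
      fun k => ?_⟩
    linarith [hk0 k, hM.mul k0]
  have hbex : ∀ k : Fin s, ∃ b : (Fin (2 * d) → ℂ) → ℂ, b 0 = p k ∧
      (∀ᶠ x in 𝓝 0, DifferentiableAt ℂ b x) ∧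
      ∀ᶠ q : (Fin (2 * d) → ℂ) × ℂ in 𝓝 (0, 0), ∃ a z' : ℂ, a ≠ 0 ∧ ‖z'‖ ≤ θ' * ‖q.2‖ ∧
        (hF (w q.1))^[per k] (cp (some k) (b q.1 + q.2)) =
          a • cp (some k) (b q.1 + z') := by
    intro k
    refine FPk w hwd hND (some k) (per k) (p k) θ' hθ'1 ?_ ?_
    · rw [hw0]
      exact hM.cyc k
    · rw [hw0]
      have h1 := hθ' k
      have h2 : (fun z => lc (some k) ((hF (fam u₁))^[per k] (cp (some k) z))) =
          rt (fam u₁) (per k) := by
        funext z
        show ((hF (fam u₁))^[per k] (z, 1)).1 * (((hF (fam u₁))^[per k] (z, 1)).2)⁻¹ = _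
        rw [← div_eq_mul_inv]
        rfl
      rw [h2]
      exact h1
  choose b' hb0 hbd hb using hbex
  -- the base points as functions of the parameter
  set b : Fin s → (Fin (2 * d) → ℂ) → ℂ := fun k x => b' k (x - u₁) with hbdef
  have hbx₁ : ∀ k, b k u₁ = p k := fun k => by simp only [hbdef, sub_self]; exact hb0 k
  have htr' : Tendsto (fun x : Fin (2 * d) → ℂ => x - u₁) (𝓝 u₁) (𝓝 0) :=
    (continuous_id.sub continuous_const).tendsto' _ _ (by simp)
  have hbd' : ∀ k, ∀ᶠ x in 𝓝 u₁, DifferentiableAt ℂ (b k) x := by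
    intro k
    filter_upwards [htr'.eventually (hbd k)] with x hx
    exact hx.comp x (differentiableAt_id.sub (differentiableAt_const u₁))
  have hbc : ∀ k, ContinuousAt (b k) u₁ := fun k => (hbd' k).self_of_nhds.continuousAt
  set θ : ℝ := max θ' 0 with hθdef
  have hθ0 : 0 ≤ θ := le_max_right _ _
  have hθ1 : θ < 1 := max_lt hθ'1 zero_lt_one
  have hθ'le : θ' ≤ θ := le_max_left _ _
  -- contraction on discs of radius `τ`
  have hcontr1 : ∀ᶠ q : (Fin (2 * d) → ℂ) × ℂ in 𝓝 (u₁, 0), ∀ k : Fin s, ∃ a z' : ℂ, a ≠ 0 ∧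
      ‖z'‖ ≤ θ * ‖q.2‖ ∧
      (hF (fam q.1))^[per k] (ch b (some k) q.1 q.2) = a • ch b (some k) q.1 z' := by
    refine eventually_all.2 fun k => ?_
    have h1 : Tendsto (fun q : (Fin (2 * d) → ℂ) × ℂ => (q.1 - u₁, q.2)) (𝓝 (u₁, 0))
        (𝓝 (0, 0)) :=
      ((continuous_fst.sub continuous_const).prodMk continuous_snd).tendsto' _ _ (by simp)
    filter_upwards [h1.eventually (hb k)] with q hq
    obtain ⟨a, z', ha, hz', h2⟩ := hq
    refine ⟨a, z', ha, hz'.trans (mul_le_mul_of_nonneg_right hθ'le (norm_nonneg _)), ?_⟩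
    have h3 : w (q.1 - u₁) = fam q.1 := by simp [hw]
    rw [h3] at h2
    exact h2
  -- separation of the base points
  have hsep1 : ∀ᶠ x in 𝓝 u₁, ∀ k k' : Fin s, ∀ m : Fin (per k),
      cr ((hF (fam x))^[(m : ℕ)] (ch b (some k) x 0)) (ch b (some k') x 0) = 0 →
        k = k' ∧ per k ∣ (m : ℕ) := by
    refine eventually_all.2 fun k => eventually_all.2 fun k' => eventually_all.2 fun m => ?_
    by_cases hcase : k = k' ∧ per k ∣ (m : ℕ)
    · exact Eventually.of_forall fun t _ => hcase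
    · have hcoc : ContinuousAt (fam : (Fin (2 * d) → ℂ) → CV d) u₁ := (hfd u₁).continuousAt
      have hchc : ∀ k : Fin s, ContinuousAt (fun x => ch b (some k) x 0) u₁ := fun k =>
        ((hbc k).add continuousAt_const).prodMk continuousAt_const
      have c5 : ContinuousAt (fun x => (hF (fam x))^[(m : ℕ)] (ch b (some k) x 0)) u₁ :=
        ContinuousAt.comp (f := fun x => (fam x, ch b (some k) x 0))
          (g := fun q : CV d × (ℂ × ℂ) => (hF q.1)^[(m : ℕ)] q.2)
          (hF_iter_continuous d m).continuousAt (hcoc.prodMk (hchc k))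
      have h1 : ContinuousAt (fun x => cr ((hF (fam x))^[(m : ℕ)] (ch b (some k) x 0))
          (ch b (some k') x 0)) u₁ := by
        unfold cr
        exact (c5.fst.mul (hchc k').snd).sub (c5.snd.mul (hchc k').fst)
      have hch : ∀ k : Fin s, ch b (some k) u₁ 0 = (p k, 1) := by
        intro k
        simp only [ch, hbx₁, add_zero]
      have h2 : ∀ᶠ x in 𝓝 u₁, cr ((hF (fam x))^[(m : ℕ)] (ch b (some k) x 0))
          (ch b (some k') x 0) ≠ 0 := by
        apply h1.eventually_ne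
        rw [hch, hch]
        intro h3
        exact hcase (hM.dis k k' m h3)
      filter_upwards [h2] with t ht ht2
      exact absurd ht2 ht
  obtain ⟨τ, hτ, hτall⟩ := Metric.eventually_nhds_iff_ball.1 hcontr1
  have hbclose : ∀ᶠ x in 𝓝 u₁, ∀ k, ‖b k x - p k‖ < (τ / 2) / 8 := by
    refine eventually_all.2 fun k => ?_
    have h1 : ContinuousAt (fun x => ‖b k x - p k‖) u₁ := ((hbc k).sub continuousAt_const).norm
    apply h1.eventually_lt continuousAt_const
    rw [hbx₁, sub_self, norm_zero]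
    positivity
  have hUev : ∀ᶠ x in 𝓝 u₁, x ∈ U₀ d := hUo.mem_nhds hx₁
  have hτev : ∀ᶠ x in 𝓝 u₁, x ∈ ball u₁ τ := ball_mem_nhds u₁ hτ
  have hbd2 : ∀ᶠ x in 𝓝 u₁, ∀ k, DifferentiableAt ℂ (b k) x := eventually_all.2 hbd'
  obtain ⟨ε, hε, hεall⟩ := Metric.eventually_nhds_iff_ball.1
    (hUev.and (hbd2.and (hsep1.and (hbclose.and hτev))))
  have hcontr2 : ∀ x ∈ ball u₁ ε, ∀ k : Fin s, ∀ z : ℂ, ‖z‖ < τ → ∃ a z' : ℂ, a ≠ 0 ∧
      ‖z'‖ ≤ θ * ‖z‖ ∧
      (hF (fam x))^[per k] (ch b (some k) x z) = a • ch b (some k) x z' := by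
    intro x hx k z hz
    refine hτall (x, z) ?_ k
    rw [← ball_prod_same]
    exact ⟨(hεall x hx).2.2.2.2, by simpa using hz⟩
  have hcontr3 : ∀ x ∈ ball u₁ ε, ∀ k : Option (Fin s), ∀ z : ℂ,
      ‖z‖ < (k.elim 0 fun _ => τ / 2) → ∃ a z' : ℂ, a ≠ 0 ∧ ‖z'‖ ≤ θ * ‖z‖ ∧
      (hF (fam x))^[k.elim 1 per] (ch b k x z) = a • ch b k x z' := by
    intro x hx k z hz
    cases k with
    | none =>
      exfalso
      simp only [Option.elim] at hz
      exact absurd hz (not_lt.2 (norm_nonneg z))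
    | some k => exact hcontr2 x hx k z (lt_trans hz (by simp only [Option.elim]; linarith))
  refine ⟨ε, τ / 2, θ, b, hε, by positivity, hθ0, hθ1, fun x hx => (hεall x hx).1, hbx₁,
    fun k x hx => ((hεall x hx).2.1 k).differentiableWithinAt, fun x hx => (hεall x hx).2.2.2.1,
    fun x hx k z hz => hcontr2 x hx k z (by linarith), ?_, ?_⟩
  · intro x hx k k' z z' a m hz hz' he
    have hy : ND (fam x) := (hεall x hx).1.1
    have hpp : ∀ k : Option (Fin s), 1 ≤ k.elim 1 per := by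
      intro k
      cases k with
      | none => exact le_refl _
      | some k => exact hM.pp k
    have h1 := Pool.Agent.W369.RQLOCM.base_par hy b x (fun k => k.elim 1 per) hpp
      (fun k => k.elim 0 fun _ => τ / 2) θ hθ0 hθ1
      (hcontr3 x hx) (some k) (some k') z z' a m hz hz' he
    have hpos : ‖(0 : ℂ)‖ < τ := by
      rw [norm_zero]
      exact hτ
    obtain ⟨c, z1, hc, hz1, h2⟩ := Pool.Agent.W369.RQLOCM.iter_contr (fam x) b x (some k) (per k)
      τ θ hθ0 hθ1 (hcontr2 x hx k) (m / per k) 0 hpos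
    rw [norm_zero, mul_zero, norm_le_zero_iff] at hz1
    rw [hz1] at h2
    have hmod : m % per k < per k := Nat.mod_lt _ (hM.pp k)
    have h3 : m = m % per k + per k * (m / per k) := (Nat.mod_add_div m (per k)).symm
    have h4 : (hF (fam x))^[m] (ch b (some k) x 0) =
        c ^ (d ^ (m % per k)) • (hF (fam x))^[m % per k] (ch b (some k) x 0) := by
      conv_lhs => rw [h3]
      rw [Function.iterate_add_apply, h2, hF_iter_smul]
    rw [h4, cr_smul_left] at h1
    have h5 := (mul_eq_zero.1 h1).resolve_left (pow_ne_zero _ hc)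
    obtain ⟨h6, h7⟩ := (hεall x hx).2.2.1 k k' ⟨m % per k, hmod⟩ h5
    refine ⟨h6, ?_⟩
    rw [h3]
    exact dvd_add h7 (dvd_mul_right _ _)
  · intro x hx k z hz hcr
    have h1 := (hεall x hx).2.2.2.1 k
    have h2 : ‖z - b k x‖ < τ := by
      have h3 : z - b k x = (z - p k) - (b k x - p k) := by ring
      calc ‖z - b k x‖ = ‖(z - p k) - (b k x - p k)‖ := by rw [← h3]
        _ ≤ ‖z - p k‖ + ‖b k x - p k‖ := norm_sub_le _ _
        _ < τ := by linarith
    obtain ⟨a, z', ha, hz', h4⟩ := hcontr2 x hx k (z - b k x) h2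
    have h5 : ch b (some k) x (z - b k x) = (z, 1) := by simp [ch]
    rw [h5] at h4
    rw [h4, cr_smul_left, ← h5] at hcr
    have h6 := cr_ch b (some k) x ((mul_eq_zero.1 hcr).resolve_left ha)
    rw [h6] at hz'
    have h7 : ‖z - b k x‖ ≤ 0 := by nlinarith [norm_nonneg (z - b k x)]
    exact sub_eq_zero.1 (norm_le_zero_iff.1 h7)

end Pool.Agent.W462.RELOCM
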