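import Pool.Agent.W780.BB.Stm
import Pool.Agent.W975.PG.Hull
import Pool.Agent.W174.PG.Basic

/-!
BB-FLOW: the time `s` map of the billiard in a convex polygon does not increase measure.
-/

set_option autoImplicit false

namespace Pool.Agent.W462.BBF

open Complex Set MeasureTheory Filter Topology Pool.Agent.W780.PG Pool.Agent.W780.BB

open scoped Real ComplexConjugate

variable {n : ℕ}

theorem dir_per (θ : ℝ) : dir (θ + 2 * π) = dir θ := by
  unfold dir
  have e : ((θ + 2 * π : ℝ) : ℂ) * I = (θ : ℂ) * I + 2 * π * I := by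
    push_cast
    ring
  rw [e, Complex.exp_add, Complex.exp_two_pi_mul_I, mul_one]

theorem dir_cont : Continuous dir := by
  unfold dir
  fun_prop

/-- the shear -/
noncomputable def sh (s : ℝ) (x : ℂ × ℝ) : ℂ × ℝ := (x.1 + s • dir x.2, x.2)

theorem sh_cont (s : ℝ) : Continuous (sh s) := by
  unfold sh
  exact (continuous_fst.add ((dir_cont.comp continuous_snd).const_smul s)).prodMk continuous_snd

theorem sh_inj (s : ℝ) : Function.Injective (sh s) := by
  intro x y h
  unfold sh at h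
  rw [Prod.ext_iff] at h
  obtain ⟨h1, h2⟩ := h
  simp only at h1 h2
  rw [h2] at h1
  exact Prod.ext (add_right_cancel h1) h2

theorem sh_mp (s : ℝ) : MeasurePreserving (sh s) := by
  have h1 : MeasurePreserving (fun q : ℝ × ℂ => (q.1, q.2 + s • dir q.1))
      ((volume : Measure ℝ).prod (volume : Measure ℂ))
      ((volume : Measure ℝ).prod (volume : Measure ℂ)) := by
    refine (MeasurePreserving.id (volume : Measure ℝ)).skew_product
      (g := fun θ z => z + s • dir θ) ?_ (Eventually.of_forall fun θ => ?_)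
    · exact (continuous_snd.add ((dir_cont.comp continuous_fst).const_smul s)).measurable
    · exact (measurePreserving_add_right (volume : Measure ℂ) (s • dir θ)).map_eq
  have h2 : MeasurePreserving (Prod.swap : ℂ × ℝ → ℝ × ℂ) (volume.prod volume)
      (volume.prod volume) := Measure.measurePreserving_swap
  have h3 : MeasurePreserving (Prod.swap : ℝ × ℂ → ℂ × ℝ) (volume.prod volume)
      (volume.prod volume) := Measure.measurePreserving_swap
  have h4 := (h3.comp h1).comp h2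
  exact h4

/-- folded end point is in the region -/
theorem ch_reg (p : Fin (n + 3) → ℂ) : ∀ (w : List (Fin (n + 3))) (B A : ℂ), Ch p w B A →
    fp p w A ∈ reg p := by
  intro w
  induction w with
  | nil => intro B A h; exact h
  | cons i w ih =>
    intro B A h
    exact ih _ _ h.2.2.2

/-- the states with itinerary `w` -/
def EE (p : Fin (n + 3) → ℂ) (s : ℝ) (w : List (Fin (n + 3))) : Set (ℂ × ℝ) :=
  {x | x.1 ∈ reg p ∧ Ch p w x.1 (x.1 + s • dir x.2)}

theorem flow (hR : S_Ref) (hM : S_Mp) (hO : S_Open) (hU : S_Uniq) (hV : S_Rev) (hH : S_Hull)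
    (hB : S_Basic) : S_Flow := by
  intro n p hp s S hS hper W
  obtain ⟨-, -, -, -, -, -, -, -, r9, -, r11, -⟩ := hR n p hp
  obtain ⟨-, hreg⟩ := hH n p hp
  obtain ⟨-, hopen, -⟩ := hB n p hp
  set str : Set (ℂ × ℝ) := univ ×ˢ Ico 0 (2 * π) with hstr
  have hstrm : MeasurableSet str := MeasurableSet.univ.prod measurableSet_Ico
  -- the sets `E_w`
  have hEm : ∀ w, IsOpen (EE p s w) := by
    intro w
    have h1 : EE p s w = (Prod.fst ⁻¹' reg p) ∩
        ((fun x : ℂ × ℝ => ((x.1, x.1 + s • dir x.2) : ℂ × ℂ)) ⁻¹' {x : ℂ × ℂ | Ch p w x.1 x.2}) :=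
      rfl
    rw [h1]
    refine (hopen.preimage continuous_fst).inter ((hO n p hp w).preimage ?_)
    exact continuous_fst.prodMk
      (continuous_fst.add ((dir_cont.comp continuous_snd).const_smul s))
  -- the maps `F_w`
  set FF : List (Fin (n + 3)) → ℂ × ℝ → ℂ × ℝ := fun w x => fd p w (sh s x) with hFF
  have hFc : ∀ w, Continuous (FF w) := fun w => (hM n p hp w).1.comp (sh_cont s)
  have hFi : ∀ w, Function.Injective (FF w) := fun w => (hM n p hp w).2.1.1.comp (sh_inj s)
  have hF1 : ∀ w x, (FF w x).1 = fp p w (x.1 + s • dir x.2) := fun w x => r9 w _ _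
  -- the images
  set Im : List (Fin (n + 3)) → Set (ℂ × ℝ) := fun w => FF w '' EE p s w with hIm
  have hImm : ∀ w, MeasurableSet (Im w) := fun w =>
    ((hFc w).measurableEmbedding (hFi w)).measurableSet_image.2 (hEm w).measurableSet
  have hImper : ∀ w z θ, (z, θ + 2 * π) ∈ Im w ↔ (z, θ) ∈ Im w := by
    intro w
    obtain ⟨e, c, he, hfd⟩ := r11 w
    have hee : e = 1 ∨ e = -1 := by
      rw [he]
      exact neg_one_pow_eq_or ℝ _
    have hsh : ∀ x : ℂ × ℝ, x ∈ EE p s w → ∀ ε : ℝ, (ε = 1 ∨ ε = -1) →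
        ((FF w x).1, (FF w x).2 + ε * (2 * π)) ∈ Im w := by
      intro x hx ε hε
      have hd : dir (x.2 + e * ε * (2 * π)) = dir x.2 := by
        have h2 : ∀ θ : ℝ, dir (θ + -1 * (2 * π)) = dir θ := by
          intro θ
          have := dir_per (θ + -1 * (2 * π))
          rw [← this]
          congr 1
          ring
        have h1 : ∀ θ : ℝ, dir (θ + 1 * (2 * π)) = dir θ := by
          intro θ
          rw [one_mul]
          exact dir_per θ
        rcases hee with h | h <;> rcases hε with h' | h' <;> rw [h, h']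
        · rw [one_mul]; exact h1 _
        · rw [one_mul]; exact h2 _
        · rw [mul_one]; exact h2 _
        · rw [show (-1 : ℝ) * -1 = 1 by norm_num]; exact h1 _
      refine ⟨(x.1, x.2 + e * ε * (2 * π)), ?_, ?_⟩
      · refine ⟨hx.1, ?_⟩
        simp only
        rw [hd]
        exact hx.2
      · apply Prod.ext
        · rw [hF1, hF1]
          simp only
          rw [hd]
        · simp only [hFF, sh]
          rw [(hfd _ _).1, (hfd _ _).1]
          have he2 : e * e = 1 := by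
            rcases hee with h | h <;> rw [h] <;> norm_num
          linear_combination (ε * (2 * π)) * he2
    intro z θ
    constructor
    · rintro ⟨x, hx, hx2⟩
      have h := hsh x hx (-1) (Or.inr rfl)
      rw [hx2] at h
      have e1 : ((z, θ + 2 * π).1, (z, θ + 2 * π).2 + -1 * (2 * π)) = (z, θ) := by
        simp only
        congr 1
        ring
      rwa [e1] at h
    · rintro ⟨x, hx, hx2⟩
      have h := hsh x hx 1 (Or.inl rfl)
      rw [hx2] at h
      have e1 : ((z, θ).1, (z, θ).2 + 1 * (2 * π)) = (z, θ + 2 * π) := by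
        simp only
        congr 1
        ring
      rwa [e1] at h
  -- measure of the pieces
  have hvol : ∀ w, volume (EE p s w ∩ FF w ⁻¹' S ∩ str) = volume (Im w ∩ S ∩ str) := by
    intro w
    have hT : MeasurableSet (Im w ∩ S) := (hImm w).inter hS
    have h1 := (hM n p hp w).2.2.2 (Im w ∩ S) hT (fun z θ => by
      rw [mem_inter_iff, mem_inter_iff, hImper, hper])
    have h2 : EE p s w ∩ FF w ⁻¹' S ∩ str = sh s ⁻¹' ((fd p w ⁻¹' (Im w ∩ S)) ∩ str) := by
      ext x
      constructor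
      · rintro ⟨⟨hx1, hx2⟩, hx3⟩
        exact ⟨⟨⟨x, hx1, rfl⟩, hx2⟩, hx3⟩
      · rintro ⟨⟨⟨y, hy1, hy2⟩, hx2⟩, hx3⟩
        have : y = x := hFi w hy2
        rw [this] at hy1
        exact ⟨⟨hy1, hx2⟩, hx3⟩
    have h3 : MeasurableSet ((fd p w ⁻¹' (Im w ∩ S)) ∩ str) :=
      (((hM n p hp w).1.measurable) hT).inter hstrm
    rw [h2, (sh_mp s).measure_preimage h3.nullMeasurableSet, h1]
  -- disjointness
  have hdisj : ∀ w w', w ≠ w' → Disjoint (Im w ∩ S ∩ str) (Im w' ∩ S ∩ str) := by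
    intro w w' hne
    rw [Set.disjoint_left]
    rintro y ⟨⟨⟨x, hx, hxy⟩, -⟩, -⟩ ⟨⟨⟨x', hx', hxy'⟩, -⟩, -⟩
    have key : ∀ (w : List (Fin (n + 3))) (x : ℂ × ℝ), x ∈ EE p s w → FF w x = y →
        Ch p w.reverse y.1 (y.1 - s • dir y.2) := by
      intro w x hx hxy
      have h1 := hV n p hp w x.1 (x.1 + s • dir x.2) hx.1 hx.2
      obtain ⟨e, c, -, hfd⟩ := r11 w
      have h2 : y.1 = fp p w (x.1 + s • dir x.2) := by rw [← hxy, hF1]
      have h3 : y.2 = e * x.2 + c := by
        rw [← hxy]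
        exact (hfd _ _).1
      have h4 : fp p w x.1 = y.1 - s • dir y.2 := by
        rw [h2, h3, (hfd x.1 x.2).2 s]
        ring
      rw [← h2, h4] at h1
      exact h1
    have h5 := hU n p hp _ _ _ _ (key w x hx hxy) (key w' x' hx' hxy')
    exact hne (List.reverse_injective h5)
  -- assembly
  have hsub : {x : ℂ × ℝ | x ∈ phase p ∧ ∃ w ∈ W, Ch p w x.1 (x.1 + s • dir x.2) ∧
      fd p w (x.1 + s • dir x.2, x.2) ∈ S} ⊆ ⋃ w ∈ W, (EE p s w ∩ FF w ⁻¹' S ∩ str) := by
    rintro x ⟨hx, w, hw, hx1, hx2⟩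
    refine mem_iUnion₂.2 ⟨w, hw, ⟨⟨⟨?_, hx1⟩, hx2⟩, ?_⟩⟩
    · rw [← hreg]
      exact hx.1
    · exact ⟨mem_univ _, hx.2⟩
  have hsub2 : (⋃ w ∈ W, (Im w ∩ S ∩ str)) ⊆ phase p ∩ S := by
    intro y hy
    obtain ⟨w, -, ⟨⟨⟨x, hx, hxy⟩, hyS⟩, hys⟩⟩ := mem_iUnion₂.1 hy
    refine ⟨⟨?_, hys.2⟩, hyS⟩
    rw [hreg, ← hxy, hF1]
    exact ch_reg p w _ _ hx.2
  calc volume {x : ℂ × ℝ | x ∈ phase p ∧ ∃ w ∈ W, Ch p w x.1 (x.1 + s • dir x.2) ∧
      fd p w (x.1 + s • dir x.2, x.2) ∈ S}
      ≤ volume (⋃ w ∈ W, (EE p s w ∩ FF w ⁻¹' S ∩ str)) := measure_mono hsub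
    _ ≤ ∑ w ∈ W, volume (EE p s w ∩ FF w ⁻¹' S ∩ str) := measure_biUnion_finset_le _ _
    _ = ∑ w ∈ W, volume (Im w ∩ S ∩ str) := Finset.sum_congr rfl (fun w _ => hvol w)
    _ = volume (⋃ w ∈ W, (Im w ∩ S ∩ str)) := by
        rw [measure_biUnion_finset (fun w _ w' _ hne => hdisj w w' hne)
          (fun w _ => ((hImm w).inter hS).inter hstrm)]
    _ ≤ volume (phase p ∩ S) := measure_mono hsub2

theorem flow' (hR : S_Ref) (hM : S_Mp) (hO : S_Open) (hU : S_Uniq) (hV : S_Rev) : S_Flow :=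
  flow hR hM hO hU hV (Pool.Agent.W975.PG.hull Pool.Agent.W174.PG.basic) Pool.Agent.W174.PG.basic

end Pool.Agent.W462.BBF
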