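import Pool.Agent.W527.CL.Stm
import Pool.Agent.H977R3.CM.TowerCount

set_option autoImplicit false

/-!
# Combinatorial lemmas
-/

namespace Pool.Agent.W462.CLCOMB

open Pool.Agent.W527.CL

lemma exists_perm {a b k k' : Fin 5} (hab : a ≠ b) (hk : k ≠ k') :
    ∃ p : Equiv.Perm (Fin 5), p a = k ∧ p b = k' := by
  refine ⟨Equiv.swap (Equiv.swap a k b) k' * Equiv.swap a k, ?_, ?_⟩
  · rw [Equiv.Perm.mul_apply, Equiv.swap_apply_left]
    apply Equiv.swap_apply_of_ne_of_ne
    · intro h
      have h1 : Equiv.swap a k a = Equiv.swap a k b := by rw [Equiv.swap_apply_left]; exact h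
      exact hab ((Equiv.swap a k).injective h1)
    · exact hk
  · rw [Equiv.Perm.mul_apply, Equiv.swap_apply_left]

/-- the difference formula -/
theorem t_DIFF : S_DIFF := by
  intro F _ _ μ i p
  set k := p i.castSucc with hk
  set k' := p (Fin.last 4) with hk'
  set q : Equiv.Perm (Fin 5) := Equiv.swap k k' * p with hq
  have h1 : q (Fin.last 4) = k := by
    rw [hq, Equiv.Perm.mul_apply, ← hk', Equiv.swap_apply_right]
  have h2 : q i.castSucc = k' := by
    rw [hq, Equiv.Perm.mul_apply, ← hk, Equiv.swap_apply_left]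
  have h3 : ∀ j : Fin 4, j ≠ i → q j.castSucc = p j.castSucc := by
    intro j hj
    rw [hq, Equiv.Perm.mul_apply]
    apply Equiv.swap_apply_of_ne_of_ne
    · intro h
      rw [hk] at h
      exact hj (Fin.castSucc_injective 4 (p.injective h))
    · intro h
      rw [hk'] at h
      exact (Fin.castSucc_lt_last j).ne (p.injective h)
  have h4 : ∑ j : Fin 4, (μ j (p j.castSucc) - μ j (q j.castSucc)) = μ i k - μ i k' := by
    rw [Finset.sum_eq_single i]
    · rw [h2]
    · intro j _ hj
      rw [h3 j hj, sub_self]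
    · intro h
      exact absurd (Finset.mem_univ i) h
  unfold ev
  rw [h1, ← h4, ← hk', ← Finset.sum_sub_distrib, ← Finset.sum_add_distrib]
  refine Finset.sum_congr rfl fun j _ => ?_
  ring

lemma five {F : Type*} [Field F] [CharZero F] (D E : Fin 4 → F)
    (h : ∀ i, D i + ∑ i', D i' = E i) : ∀ i, D i = E i - (∑ j, E j) / 5 := by
  have h1 : ∑ j, E j = 5 * ∑ i', D i' := by
    simp only [← h, Finset.sum_add_distrib, Finset.sum_const, Finset.card_univ, Fintype.card_fin,
      nsmul_eq_mul]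
    push_cast
    ring
  intro i
  rw [h1, ← h i]
  have : (5 : F) ≠ 0 := by norm_num
  field_simp
  ring

/-- zero values -/
theorem t_ZERO : S_ZERO := by
  intro F _ _ μ h i k k'
  by_cases hk : k = k'
  · rw [hk]
  have h1 : ∀ j : Fin 4, (μ j k - μ j k') + ∑ i', (μ i' k - μ i' k') = 0 := by
    intro j
    obtain ⟨p, hp, hp'⟩ := exists_perm (a := j.castSucc) (b := Fin.last 4)
      (Fin.castSucc_lt_last j).ne hk
    have h2 := t_DIFF F μ j p
    rw [h, h, hp, hp', sub_self] at h2
    exact h2.symm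
  have h3 := five (fun j => μ j k - μ j k') (fun _ => 0) h1 i
  simp only [Finset.sum_const_zero, zero_div, sub_self] at h3
  exact sub_eq_zero.1 h3

/-- rational values -/
theorem t_RAT : S_RAT := by
  intro μ h i k k'
  by_cases hk : k = k'
  · exact ⟨0, by rw [hk, sub_self, Rat.cast_zero]⟩
  have h1 : ∀ j : Fin 4, ∃ e : ℚ, (μ j k - μ j k') + ∑ i', (μ i' k - μ i' k') = e := by
    intro j
    obtain ⟨p, hp, hp'⟩ := exists_perm (a := j.castSucc) (b := Fin.last 4)
      (Fin.castSucc_lt_last j).ne hk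
    have h2 := t_DIFF ℝ μ j p
    obtain ⟨q₁, hq₁⟩ := h p
    obtain ⟨q₂, hq₂⟩ := h (Equiv.swap (p j.castSucc) (p (Fin.last 4)) * p)
    refine ⟨q₁ - q₂, ?_⟩
    rw [hq₁, hq₂, hp, hp'] at h2
    rw [← h2]
    push_cast
    ring
  choose e he using h1
  have h3 := five (fun j => μ j k - μ j k') (fun j => (e j : ℝ)) he i
  refine ⟨e i - (∑ j, e j) / 5, ?_⟩
  rw [h3]
  push_cast
  ring

/-- the sign property -/
theorem t_SIGN : S_SIGN := by
  intro μ h p
  have key : ∀ q : Equiv.Perm (Fin 5), 2 * ev μ q =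
      (μ 0 (q 0) - μ 0 (q (Fin.last 4))) + ∑ i', (μ i' (q 0) - μ i' (q (Fin.last 4))) := by
    intro q
    have h1 := t_DIFF ℝ μ 0 q
    have hne : q ((0 : Fin 4).castSucc) ≠ q (Fin.last 4) := by
      intro h2
      have := q.injective h2
      exact absurd this (by decide)
    rw [h q _ _ hne] at h1
    have e0 : (0 : Fin 4).castSucc = (0 : Fin 5) := rfl
    rw [e0] at h1
    linarith
  have hne : p 1 ≠ p 2 := by
    intro h2
    exact absurd (p.injective h2) (by decide)
  have h1 := key p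
  have h2 := key (Equiv.swap (p 1) (p 2) * p)
  have e1 : (Equiv.swap (p 1) (p 2) * p) 0 = p 0 := by
    rw [Equiv.Perm.mul_apply]
    apply Equiv.swap_apply_of_ne_of_ne
    · intro h3
      exact absurd (p.injective h3) (by decide)
    · intro h3
      exact absurd (p.injective h3) (by decide)
  have e2 : (Equiv.swap (p 1) (p 2) * p) (Fin.last 4) = p (Fin.last 4) := by
    rw [Equiv.Perm.mul_apply]
    apply Equiv.swap_apply_of_ne_of_ne
    · intro h3
      exact absurd (p.injective h3) (by decide)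
    · intro h3
      exact absurd (p.injective h3) (by decide)
  rw [e1, e2, ← h1, h p _ _ hne] at h2
  linarith

/-- automorphisms of `ℂ` -/
theorem t_AUT : S_AUT := by
  intro K _ _ D p
  obtain ⟨φ, hφ⟩ := D.surj 1
  obtain ⟨χ, hχ⟩ := D.surj p
  obtain ⟨τ, hτ⟩ := Pool.Agent.H977R3.CM.exists_aut_emb φ χ
  refine ⟨τ, fun k => ?_⟩
  have h1 : φ (D.b k) = D.β k := by
    rw [hφ k, Equiv.Perm.one_apply]
  have h2 := RingHom.congr_fun hτ (D.b k)
  rw [← h1, ← hχ k, ← h2]
  rfl

end Pool.Agent.W462.CLCOMB
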