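import Mathlib
import Pool.Agent.W902.Q.Stm

/-!
# Q-DERIV (project Q of helper902): the derivative at `0` of a polynomial bounded on `[0,1]`
-/

set_option autoImplicit false

namespace Pool.Agent.W462.QDERIV

open Finset Polynomial Pool.Agent.W902.Q

theorem deriv : S_deriv := by
  intro L
  set s : Finset (Fin (L + 1)) := univ with hs
  set v : Fin (L + 1) → ℂ := fun i => (((i : ℕ) : ℝ) / ((L : ℝ) + 1) : ℝ) with hv
  have hL : (0 : ℝ) < (L : ℝ) + 1 := by positivity
  have hinj : Set.InjOn v s := by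
    intro i _ j _ h
    have h1 : ((i : ℕ) : ℝ) / ((L : ℝ) + 1) = ((j : ℕ) : ℝ) / ((L : ℝ) + 1) :=
      Complex.ofReal_injective h
    rw [div_left_inj' hL.ne'] at h1
    exact Fin.ext (by exact_mod_cast h1)
  refine ⟨∑ i ∈ s, ‖(Lagrange.basis s v i).derivative.eval 0‖, fun b hb hbd => ?_⟩
  have hdeg : b.degree < s.card := by
    rw [hs, card_univ, Fintype.card_fin]
    refine lt_of_le_of_lt degree_le_natDegree ?_
    exact_mod_cast Nat.lt_succ_of_le hb
  have h1 := Lagrange.eq_interpolate hinj hdeg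
  have h2 : b.derivative.eval 0 =
      ∑ i ∈ s, b.eval (v i) * (Lagrange.basis s v i).derivative.eval 0 := by
    conv_lhs => rw [h1]
    rw [Lagrange.interpolate_apply, derivative_sum, eval_finsetSum]
    refine sum_congr rfl fun i _ => ?_
    rw [derivative_C_mul, eval_mul, eval_C]
  rw [h2]
  refine (norm_sum_le _ _).trans (sum_le_sum fun i _ => ?_)
  rw [norm_mul]
  have h3 : ‖b.eval (v i)‖ ≤ 1 := by
    refine hbd _ (by positivity) ?_
    rw [div_le_one hL]
    have : (i : ℕ) ≤ L := Nat.lt_succ_iff.1 i.2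
    have h4 : ((i : ℕ) : ℝ) ≤ L := by exact_mod_cast this
    linarith
  exact (mul_le_mul_of_nonneg_right h3 (norm_nonneg _)).trans (by rw [one_mul])

end Pool.Agent.W462.QDERIV
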