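import Mathlib
import Pool.Agent.W893.SY.PerDefs

/-!
# The permanent depends on the charges (project SY of helper893, task SY-PER)
-/

set_option autoImplicit false

namespace Pool.Agent.W462.SYPer

open Finset Pool.Agent.W893.SY

variable {M N q : ℕ}

/-- the sign character -/
def sg (b : ZMod 2) : ℚ := if b = 0 then 1 else -1

theorem sum_sg (f : ZMod 2 → ℚ) : ∑ b, sg b * f b = f 0 - f 1 := by
  have h : (univ : Finset (ZMod 2)) = {0, 1} := by decide
  rw [h, sum_pair (by decide)]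
  have h1 : sg 0 = 1 := rfl
  have h2 : sg 1 = -1 := rfl
  rw [h1, h2]; ring

/-- the product of the entries in the other rows -/
noncomputable def fixp (σ : RowT M N q ≃ ColT M N q) : ℚ := ∏ z, fixEntry z (σ (Sum.inr z))

/-- the difference of the two charges -/
noncomputable def Dl (Φ : Inc M N) (c : Fin M) (τ : Fin 5 → ColT M N q) : ℚ :=
  (∏ k, rowEntry Φ 0 c k (τ k)) - ∏ k, rowEntry Φ 1 c k (τ k)

/-- the columns of the rows of `c` -/
def tau (σ : RowT M N q ≃ ColT M N q) (c : Fin M) (k : Fin 5) : ColT M N q := σ (Sum.inl (c, k))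

theorem prod_mat (Φ : Inc M N) (β : Fin M → ZMod 2) (σ : RowT M N q ≃ ColT M N q) :
    ∏ x, mat Φ β x (σ x) = (∏ c, ∏ k, rowEntry Φ (β c) c k (tau σ c k)) * fixp σ := by
  rw [Fintype.prod_sum_type, Fintype.prod_prod_type]
  rfl

theorem prod_sum_univ {κ : Type} [Fintype κ] (f : Fin M → κ → ℚ) :
    ∑ x : Fin M → κ, ∏ c, f c (x c) = ∏ c, ∑ b, f c b := by
  classical
  rw [Finset.prod_univ_sum, Fintype.piFinset_univ]

theorem signed_sum (Φ : Inc M N) (σ : RowT M N q ≃ ColT M N q) :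
    ∑ β : Fin M → ZMod 2, (∏ c, sg (β c)) * ∏ x, mat Φ β x (σ x) =
      fixp σ * ∏ c, Dl Φ c (tau σ c) := by
  have h1 : ∀ β : Fin M → ZMod 2, (∏ c, sg (β c)) * ∏ x, mat Φ β x (σ x) =
      fixp σ * ∏ c, (sg (β c) * ∏ k, rowEntry Φ (β c) c k (tau σ c k)) := by
    intro β
    rw [prod_mat, prod_mul_distrib]
    ring
  rw [sum_congr rfl fun β _ => h1 β, ← mul_sum,
    prod_sum_univ (fun c b => sg b * ∏ k, rowEntry Φ b c k (tau σ c k))]
  congr 1
  refine prod_congr rfl fun c _ => ?_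
  rw [sum_sg (fun b => ∏ k, rowEntry Φ b c k (tau σ c k))]
  rfl

/-- permutations of the rows of the constraints -/
def rp (π : Fin M → Equiv.Perm (Fin 5)) : Equiv.Perm (RowT M N q) :=
  Equiv.sumCongr (Equiv.prodShear (Equiv.refl _) π) (Equiv.refl _)

theorem tau_rp (π : Fin M → Equiv.Perm (Fin 5)) (σ : RowT M N q ≃ ColT M N q) (c : Fin M) :
    tau ((rp π).trans σ) c = fun k => tau σ c (π c k) := rfl

theorem fixp_rp (π : Fin M → Equiv.Perm (Fin 5)) (σ : RowT M N q ≃ ColT M N q) :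
    fixp ((rp π).trans σ) = fixp σ := rfl

theorem sum_rp (π : Fin M → Equiv.Perm (Fin 5)) (W : (RowT M N q ≃ ColT M N q) → ℚ) :
    ∑ σ, W ((rp π).trans σ) = ∑ σ, W σ := by
  have h := Equiv.sum_comp (Equiv.equivCongr (rp (M := M) (N := N) (q := q) π).symm
    (Equiv.refl (ColT M N q))) W
  rw [← h]
  refine sum_congr rfl fun σ _ => ?_
  congr 1

theorem symm_sum (Φ : Inc M N) :
    (Fintype.card (Fin M → Equiv.Perm (Fin 5)) : ℚ) *
      ∑ σ : RowT M N q ≃ ColT M N q, fixp σ * ∏ c, Dl Φ c (tau σ c) =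
      ∑ σ : RowT M N q ≃ ColT M N q, fixp σ * ∏ c, Eloc Φ c (tau σ c) := by
  have h1 : ∑ π : Fin M → Equiv.Perm (Fin 5), ∑ σ : RowT M N q ≃ ColT M N q,
      fixp σ * ∏ c, Dl Φ c (fun k => tau σ c (π c k)) =
      (Fintype.card (Fin M → Equiv.Perm (Fin 5)) : ℚ) *
      ∑ σ : RowT M N q ≃ ColT M N q, fixp σ * ∏ c, Dl Φ c (tau σ c) := by
    have h2 : ∀ π : Fin M → Equiv.Perm (Fin 5), ∑ σ : RowT M N q ≃ ColT M N q,
        fixp σ * ∏ c, Dl Φ c (fun k => tau σ c (π c k)) =
        ∑ σ : RowT M N q ≃ ColT M N q, fixp σ * ∏ c, Dl Φ c (tau σ c) := by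
      intro π
      exact sum_rp π (fun σ => fixp σ * ∏ c, Dl Φ c (tau σ c))
    rw [sum_congr rfl fun π _ => h2 π, sum_const, nsmul_eq_mul]
    rfl
  rw [← h1, sum_comm]
  refine sum_congr rfl fun σ _ => ?_
  rw [← mul_sum, prod_sum_univ (fun c (ρ : Equiv.Perm (Fin 5)) => Dl Φ c (fun k => tau σ c (ρ k)))]
  rfl

/-! ### the nonzero terms -/

theorem fixEntry_nonneg (z : (Fin N × Fin 3) ⊕ Fin q) (y : ColT M N q) : 0 ≤ fixEntry z y := by
  rcases z with ⟨e, j⟩ | x <;> rcases y with ⟨e', a⟩ | y | y <;> simp only [fixEntry] <;>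
    first
    | exact le_refl _
    | (split_ifs <;> norm_num)

theorem fixp_nonneg (σ : RowT M N q ≃ ColT M N q) : 0 ≤ fixp σ :=
  prod_nonneg fun _ _ => fixEntry_nonneg _ _

theorem tau_inj (σ : RowT M N q ≃ ColT M N q) (c : Fin M) : Function.Injective (tau σ c) := by
  intro k k' h
  have := σ.injective h
  simpa using this

/-- the sign of a nonzero term -/
theorem term_sign (hL : S_perloc) (Φ : Inc M N) (hΦ : ∀ c, Function.Injective (nu Φ c))
    (σ : RowT M N q ≃ ColT M N q) :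
    0 ≤ (-1) ^ N * (fixp σ * ∏ c, Eloc Φ c (tau σ c)) := by
  by_cases hz : ∃ c, Eloc Φ c (tau σ c) = 0
  · obtain ⟨c, hc⟩ := hz
    rw [prod_eq_zero (mem_univ c) hc, mul_zero, mul_zero]
  push Not at hz
  have h1 : ∀ c, ∃ a, Set.range (tau σ c) = colSet Φ c a := by
    intro c
    by_contra hcon
    push Not at hcon
    exact hz c ((hL M N q Φ c (tau σ c) (hΦ c) (tau_inj σ c)).1 hcon)
  choose a ha using h1
  have h2 : ∀ c, Eloc Φ c (tau σ c) = 2 * (-1) ^ (∑ i, (a c i).val) := fun c =>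
    (hL M N q Φ c (tau σ c) (hΦ c) (tau_inj σ c)).2 (a c) (ha c)
  -- the map of occurrences
  set g : Fin M × Fin 3 → Fin N × Fin 2 := fun p => (nu Φ p.1 p.2, a p.1 p.2) with hg
  have hginj : Function.Injective g := by
    rintro ⟨c, i⟩ ⟨c', i'⟩ h
    have h' : (nu Φ c i, a c i) = (nu Φ c' i', a c' i') := h
    have e1 : nu Φ c i = nu Φ c' i' := (Prod.mk.inj h').1
    have e2 : a c i = a c' i' := (Prod.mk.inj h').2
    have m1 : (Sum.inl (nu Φ c i, Fin.castLE (by norm_num) (a c i)) : ColT M N q) ∈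
        Set.range (tau σ c) := by
      rw [ha c]; exact Or.inl ⟨i, rfl⟩
    have m2 : (Sum.inl (nu Φ c' i', Fin.castLE (by norm_num) (a c' i')) : ColT M N q) ∈
        Set.range (tau σ c') := by
      rw [ha c']; exact Or.inl ⟨i', rfl⟩
    rw [← e1, ← e2] at m2
    obtain ⟨k, hk⟩ := m1
    obtain ⟨k', hk'⟩ := m2
    have e3 : (Sum.inl (c, k) : RowT M N q) = Sum.inl (c', k') := σ.injective (hk.trans hk'.symm)
    have e4 : c = c' := by
      have := Sum.inl.inj e3
      exact congrArg Prod.fst this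
    subst e4
    have e5 : i = i' := hΦ c e1
    rw [e5]
  have hgbij : Function.Bijective g :=
    (Fintype.bijective_iff_injective_and_card g).2 ⟨hginj, Fintype.card_congr Φ⟩
  have h3 : ∑ c, ∑ i, (a c i).val = N := by
    have e1 : ∑ c, ∑ i, (a c i).val = ∑ p : Fin M × Fin 3, (g p).2.val := by
      rw [Fintype.sum_prod_type]
    have e2 : ∑ p : Fin M × Fin 3, (g p).2.val = ∑ r : Fin N × Fin 2, r.2.val :=
      hgbij.sum_comp (fun r : Fin N × Fin 2 => r.2.val)
    rw [e1, e2, Fintype.sum_prod_type]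
    simp
  have h4 : ∏ c, Eloc Φ c (tau σ c) = 2 ^ M * (-1) ^ N := by
    rw [prod_congr rfl fun c _ => h2 c, prod_mul_distrib, prod_pow_eq_pow_sum, h3, prod_const]
    simp
  rw [h4]
  have h5 : ((-1 : ℚ) ^ N) * (fixp σ * (2 ^ M * (-1) ^ N)) = fixp σ * 2 ^ M := by
    have : ((-1 : ℚ) ^ N) * (-1) ^ N = 1 := by rw [← mul_pow]; norm_num
    calc _ = fixp σ * 2 ^ M * (((-1 : ℚ) ^ N) * (-1) ^ N) := by ring
      _ = _ := by rw [this, mul_one]
  rw [h5]
  exact mul_nonneg (fixp_nonneg σ) (by positivity)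

/-- a bijection with a nonzero term -/
def f0 (Φ : Inc M N) : RowT M N q → ColT M N q
  | Sum.inl (c, k) =>
    if h : k.val < 3 then Sum.inl ((Φ (c, ⟨k.val, h⟩)).1, Fin.castLE (by norm_num) (Φ (c, ⟨k.val, h⟩)).2)
    else Sum.inr (Sum.inl (c, ⟨k.val - 3, by omega⟩))
  | Sum.inr (Sum.inl (e, j)) => Sum.inl (e, ⟨j.val + 2, by omega⟩)
  | Sum.inr (Sum.inr x) => Sum.inr (Sum.inr x)

theorem f0_inj (Φ : Inc M N) : Function.Injective (f0 (q := q) Φ) := by
  rintro (⟨c, k⟩ | ⟨e, j⟩ | x) (⟨c', k'⟩ | ⟨e', j'⟩ | x') h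
  · simp only [f0] at h
    split_ifs at h with h1 h2 h2
    · have h3 := Sum.inl.inj h
      have h4 : (Φ (c, ⟨k.val, h1⟩)).1 = (Φ (c', ⟨k'.val, h2⟩)).1 := (Prod.mk.inj h3).1
      have h5 : (Φ (c, ⟨k.val, h1⟩)).2 = (Φ (c', ⟨k'.val, h2⟩)).2 := by
        have := congrArg Fin.val (Prod.mk.inj h3).2
        exact Fin.ext this
      have h6 : (c, (⟨k.val, h1⟩ : Fin 3)) = (c', ⟨k'.val, h2⟩) := Φ.injective (Prod.ext h4 h5)
      have h7 : c = c' := congrArg Prod.fst h6
      have h8 : k.val = k'.val := by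
        have := congrArg (fun y => (Prod.snd y).val) h6
        exact this
      rw [h7, Fin.ext h8]
    · have h3 := Sum.inl.inj (Sum.inr.inj h)
      have h7 : c = c' := (Prod.mk.inj h3).1
      have h8 : k.val - 3 = k'.val - 3 := congrArg Fin.val (Prod.mk.inj h3).2
      have h9 : k.val = k'.val := by omega
      rw [h7, Fin.ext h9]
  · simp only [f0] at h
    split_ifs at h with h1
    · have h3 := congrArg Fin.val (Prod.mk.inj (Sum.inl.inj h)).2
      simp only [Fin.val_castLE] at h3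
      have := (Φ (c, ⟨k.val, h1⟩)).2.isLt
      omega
  · simp only [f0] at h
    split_ifs at h with h1
    exact absurd (Sum.inr.inj h) (by simp)
  · simp only [f0] at h
    split_ifs at h with h1
    · have h3 := congrArg Fin.val (Prod.mk.inj (Sum.inl.inj h)).2
      simp only [Fin.val_castLE] at h3
      have := (Φ (c', ⟨k'.val, h1⟩)).2.isLt
      omega
  · simp only [f0] at h
    have h3 := Sum.inl.inj h
    have h7 : e = e' := (Prod.mk.inj h3).1
    have h8 : j.val + 2 = j'.val + 2 := congrArg Fin.val (Prod.mk.inj h3).2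
    have h9 : j.val = j'.val := by omega
    rw [h7, Fin.ext h9]
  · exact absurd h (by simp [f0])
  · simp only [f0] at h
    split_ifs at h with h1
    exact absurd (Sum.inr.inj h) (by simp)
  · exact absurd h (by simp [f0])
  · simp only [f0] at h
    have h3 := Sum.inr.inj (Sum.inr.inj h)
    rw [h3]

theorem card_eq (Φ : Inc M N) : Fintype.card (RowT M N q) = Fintype.card (ColT M N q) := by
  have h := Fintype.card_congr Φ
  simp only [Fintype.card_prod, Fintype.card_fin] at h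
  simp only [Fintype.card_sum, Fintype.card_prod, Fintype.card_fin]
  omega

noncomputable def s0 (Φ : Inc M N) : RowT M N q ≃ ColT M N q :=
  Equiv.ofBijective (f0 Φ) ((Fintype.bijective_iff_injective_and_card _).2 ⟨f0_inj Φ, card_eq Φ⟩)

theorem fixp_s0 (Φ : Inc M N) : fixp (s0 (q := q) Φ) = 1 := by
  unfold fixp
  refine prod_eq_one ?_
  rintro (⟨e, j⟩ | x) _
  · show fixEntry (Sum.inl (e, j)) (f0 Φ (Sum.inr (Sum.inl (e, j)))) = 1
    simp [f0, fixEntry]
  · show fixEntry (Sum.inr x) (f0 Φ (Sum.inr (Sum.inr x))) = 1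
    simp [f0, fixEntry]

theorem range_s0 (Φ : Inc M N) (c : Fin M) :
    Set.range (tau (s0 (q := q) Φ) c) = colSet Φ c (fun i => (Φ (c, i)).2) := by
  ext y
  constructor
  · rintro ⟨k, rfl⟩
    show f0 Φ (Sum.inl (c, k)) ∈ _
    simp only [f0]
    split_ifs with h
    · exact Or.inl ⟨⟨k.val, h⟩, rfl⟩
    · right
      have : k = 3 ∨ k = 4 := by
        have := k.isLt
        rcases (by omega : k.val = 3 ∨ k.val = 4) with h1 | h1
        · left; exact Fin.ext h1
        · right; exact Fin.ext h1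
      rcases this with h1 | h1
      · left
        subst h1
        rfl
      · right
        subst h1
        rfl
  · rintro (⟨i, rfl⟩ | h | h)
    · refine ⟨Fin.castLE (by norm_num) i, ?_⟩
      show f0 Φ (Sum.inl (c, _)) = _
      simp only [f0]
      rw [dif_pos (by simp)]
      rfl
    · refine ⟨3, ?_⟩
      rw [h]
      show f0 Φ (Sum.inl (c, 3)) = _
      simp only [f0]
      rw [dif_neg (by decide)]
      rfl
    · have h' : y = Sum.inr (Sum.inl (c, 1)) := h
      refine ⟨4, ?_⟩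
      rw [h']
      show f0 Φ (Sum.inl (c, 4)) = _
      simp only [f0]
      rw [dif_neg (by decide)]
      rfl

theorem main (hL : S_perloc) : S_per := by
  intro M N q Φ hΦ hM
  by_contra hcon
  push Not at hcon
  -- the signed sum vanishes
  have h0 : ∑ β : Fin M → ZMod 2, (∏ c, sg (β c)) * perm2 (q := q) Φ β = 0 := by
    rw [sum_congr rfl fun β _ => by rw [hcon β], ← sum_mul]
    have h1 : ∑ β : Fin M → ZMod 2, ∏ c, sg (β c) = 0 := by
      rw [prod_sum_univ (fun _ b => sg b)]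
      have h2 : ∑ b : ZMod 2, sg b = 0 := by
        have := sum_sg (fun _ => 1)
        simpa using this
      exact prod_eq_zero (mem_univ (⟨0, hM⟩ : Fin M)) h2
    rw [h1, zero_mul]
  have h1 : ∑ β : Fin M → ZMod 2, (∏ c, sg (β c)) * perm2 (q := q) Φ β =
      ∑ σ : RowT M N q ≃ ColT M N q, fixp σ * ∏ c, Dl Φ c (tau σ c) := by
    rw [← sum_congr rfl fun σ _ => signed_sum Φ σ, sum_comm]
    refine sum_congr rfl fun β _ => ?_
    unfold perm2
    rw [mul_sum]
  rw [h1] at h0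
  have h2 := symm_sum (q := q) Φ
  rw [h0, mul_zero] at h2
  have h3 : ∑ σ : RowT M N q ≃ ColT M N q,
      (-1) ^ N * (fixp σ * ∏ c, Eloc Φ c (tau σ c)) = 0 := by
    rw [← mul_sum, ← h2, mul_zero]
  have h4 := (sum_eq_zero_iff_of_nonneg fun σ _ => term_sign hL Φ hΦ σ).1 h3 (s0 Φ) (mem_univ _)
  have h5 : fixp (s0 (q := q) Φ) * ∏ c, Eloc Φ c (tau (s0 (q := q) Φ) c) ≠ 0 := by
    rw [fixp_s0, one_mul]
    refine prod_ne_zero_iff.2 fun c _ => ?_
    rw [(hL M N q Φ c (tau (s0 Φ) c) (hΦ c) (tau_inj _ c)).2 _ (range_s0 Φ c)]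
    refine mul_ne_zero (by norm_num) (pow_ne_zero _ (by norm_num))
  exact h5 ((mul_eq_zero.1 h4).resolve_left (pow_ne_zero _ (by norm_num)))

end Pool.Agent.W462.SYPer
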